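import Pool.Agent.Helper32_ND.Stmts

/-!
# ND, module NDC
-/

set_option autoImplicit false

namespace Pool.Agent.ND.H18

open Pool.Agent.ND Finset

theorem sum_cnt {ι : Type} [Fintype ι] [DecidableEq ι] {r : ℕ} (B : Fin r → ι) :
    ∑ i, cnt B i = r := by
  unfold cnt
  have h := Finset.card_eq_sum_card_fiberwise (f := B) (s := (univ : Finset (Fin r)))
    (t := (univ : Finset ι)) (fun _ _ => Finset.mem_coe.mpr (mem_univ _))
  rw [← h, Finset.card_univ, Fintype.card_fin]

/-- module NDC -/
theorem ndc (h1 : GenStmt) (h2 : F1Stmt) (h3 : EndStmt) : NdcStmt := by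
  intro ι _ _ M L hL B hB hc m hm κ _ g hg
  set A : Arr ι (M + 2) := ⟨L, hL⟩ with hA
  obtain ⟨P⟩ := h1 ι M A
  have hBi : Function.Injective B := by
    intro p q hpq
    by_contra hne
    have h4 : (Pi.single p 1 : Fin (M + 2) → ℂ) = Pi.single q 1 := by
      rw [← hB p, ← hB q, hpq]
    have h5 := congrFun h4 p
    rw [Pi.single_eq_same, Pi.single_eq_of_ne hne] at h5
    exact one_ne_zero h5
  obtain ⟨j, ⟨p, hp, hjp⟩, q, hq, hjq⟩ := hc {0} (singleton_nonempty 0) (by
    intro h
    have h6 : (1 : Fin (M + 2)) ∈ ({0} : Finset (Fin (M + 2))) := by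
      rw [h]; exact mem_univ _
    rw [mem_singleton] at h6
    exact absurd (congrArg Fin.val h6) (by simp))
  have hjB : ∀ r, B r ≠ j := by
    intro r hr
    rw [← hr, hB r] at hjp hjq
    have hpr : p = r := by
      by_contra h
      exact hjp (Pi.single_eq_of_ne h _)
    have hqr : q = r := by
      by_contra h
      exact hjq (Pi.single_eq_of_ne h _)
    exact hq (hqr.trans hpr.symm ▸ hp)
  have hd : M + 2 < ∑ i, m i := by
    have h7 : (insert j (univ.image B)).card = M + 3 := by
      rw [card_insert_of_notMem, card_image_of_injective _ hBi, card_univ, Fintype.card_fin]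
      intro h
      obtain ⟨r, -, hr⟩ := mem_image.mp h
      exact hjB r hr
    have h8 : (insert j (univ.image B)).card ≤ (univ : Finset ι).card :=
      card_le_card (subset_univ _)
    have h9 : (univ : Finset ι).card ≤ ∑ i, m i := by
      rw [card_eq_sum_ones]
      exact sum_le_sum fun i _ => hm i
    omega
  by_contra hne
  set d : ℕ := ∑ i, m i with hdd
  have hd0 : (d : ℂ) ≠ 0 := by
    have : d ≠ 0 := by omega
    exact_mod_cast this
  set β : ℂ := -((M + 2 : ℕ) : ℂ) / (d : ℂ) with hβ
  have hβd : β * (d : ℂ) = -((M + 2 : ℕ) : ℂ) := by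
    rw [hβ]; field_simp
  have h10 := h2 ι M A P B hB m hm hd κ g hg β hβd hne
  refine h3 ι M A P B hB hc m hm (fun i => β * (m i : ℂ) + (cnt B i : ℂ)) ?_ 1 one_ne_zero ?_
  · rw [sum_add_distrib, ← mul_sum, ← Nat.cast_sum, ← Nat.cast_sum, sum_cnt, ← hdd, hβd]
    ring
  · have h11 : (fun i => (algebraMap ℂ K0 β + t0) * (m i : K0) + (cnt B i : K0))
        = fun i => algebraMap ℂ K0 (β * (m i : ℂ) + (cnt B i : ℂ))
          + algebraMap ℂ K0 1 * t0 * (m i : K0) := by
      funext i
      rw [map_add, map_mul, map_natCast, map_natCast, map_one]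
      ring
    rw [h11] at h10
    exact h10

end Pool.Agent.ND.H18
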