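import Pool.Agent.Helper32_ND.Stmts

/-!
# ND, module VAL
-/

set_option autoImplicit false

namespace Pool.Agent.ND.H18

open Pool.Agent.ND

theorem inj : Function.Injective (algebraMap E0 K0) := IsFractionRing.injective E0 K0

/-- the power series ring is isomorphic to the subring -/
noncomputable def eqv : E0 ≃+* O0 :=
  RingEquiv.ofBijective (algebraMap E0 K0).rangeRestrict
    ⟨fun _ _ h => inj (congrArg Subtype.val h), (algebraMap E0 K0).rangeRestrict_surjective⟩

theorem eqv_symm (a : E0) (h : algebraMap E0 K0 a ∈ O0) :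
    eqv.symm ⟨algebraMap E0 K0 a, h⟩ = a := by
  rw [RingEquiv.symm_apply_eq]
  exact Subtype.ext rfl

theorem alg (c : ℂ) : algebraMap ℂ K0 c = algebraMap E0 K0 (PowerSeries.C c) := by
  rw [IsScalarTower.algebraMap_apply ℂ E0 K0]
  rfl

/-- module VAL -/
theorem val : ValStmt := by
  refine ⟨fun c => ⟨PowerSeries.C c, (alg c).symm⟩, ⟨PowerSeries.X, rfl⟩,
    (PowerSeries.constantCoeff (R := ℂ)).comp (eqv.symm : O0 →+* E0), ?_, ?_, ?_⟩
  · intro c h
    have h2 : algebraMap E0 K0 (PowerSeries.C c) ∈ O0 := ⟨_, rfl⟩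
    have h3 : (⟨algebraMap ℂ K0 c, h⟩ : O0) = ⟨algebraMap E0 K0 (PowerSeries.C c), h2⟩ :=
      Subtype.ext (alg c)
    show PowerSeries.constantCoeff (eqv.symm ⟨algebraMap ℂ K0 c, h⟩) = c
    rw [h3, eqv_symm]
    exact PowerSeries.constantCoeff_C c
  · intro h
    have h2 : algebraMap E0 K0 PowerSeries.X ∈ O0 := h
    show PowerSeries.constantCoeff (eqv.symm ⟨algebraMap E0 K0 PowerSeries.X, h2⟩) = 0
    rw [eqv_symm]
    exact PowerSeries.constantCoeff_X
  · rintro ⟨x, f, rfl⟩ hx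
    have hx' : PowerSeries.constantCoeff f ≠ 0 := by
      intro h0
      apply hx
      have h2 : algebraMap E0 K0 f ∈ O0 := ⟨f, rfl⟩
      show PowerSeries.constantCoeff (eqv.symm ⟨algebraMap E0 K0 f, h2⟩) = 0
      rw [eqv_symm, h0]
    have h1 : algebraMap E0 K0 f * algebraMap E0 K0 f⁻¹ = 1 := by
      rw [← map_mul, PowerSeries.mul_inv_cancel f hx', map_one]
    refine ⟨left_ne_zero_of_mul_eq_one h1, f⁻¹, ?_⟩
    exact eq_inv_of_mul_eq_one_right h1

end Pool.Agent.ND.H18
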